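import Pool.Agent.TH145.GH.MainB

/-!
MP_26d9ad_nt, Q1: integral points on the complements of generic hypersurfaces of degree
`d ≥ 2 n + 2` in the projective space of dimension `n`.

Let `K` be an algebraically closed field of characteristic `0`, and let `k` be a field contained in
`K`. The hypersurface `F = 0` is generic over `k` if the ratios of the coefficients of `F` are
algebraically independent over `k`.
-/

set_option autoImplicit false

namespace Pool.Agent.TH145.Old.GenericComplements

open Pool.Agent.TH145.GH

theorem result {k K : Type} [Field k] [Field K] [IsAlgClosed K] [CharZero K] [Algebra k K]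
    {n d : ℕ} (hd : 2 * n + 2 ≤ d) (F : MvPolynomial (Fin (n + 1)) K) (hF : F.IsHomogeneous d)
    -- the ratios of the coefficients of `F` are algebraically independent over `k`
    (I0 : Fin (n + 1) →₀ ℕ) (h0 : F.coeff I0 ≠ 0)
    (hgen : AlgebraicIndependent k fun I : {I : Fin (n + 1) →₀ ℕ // I.degree = d ∧ I ≠ I0} =>
      F.coeff I.1 / F.coeff I0)
    -- a ring contained in a finitely generated algebra over the algebraic closure of `k`
    (T : Finset K) (R : Subring K)
    (hR : R ≤ Subring.closure ((algebraicClosure k K : Set K) ∪ (T : Set K))) :
    (HypInt F d R).Finite :=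
  fin_generic_B hd F hF I0 h0 hgen T R hR

end Pool.Agent.TH145.Old.GenericComplements
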