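import Pool.Agent.TH145.GC.Main

/-!
MP_26d9ad_nt, Q1: integral points on generic log complete intersections in an arbitrary projective
variety.

Let `K` be an algebraically closed field of characteristic `0`, and let `k` be a field contained in
`K`, with algebraic closure `k'` in `K`. Let `V` be a closed subset of projective space, defined
over `k'`, of dimension at most `m`, and let `F_a` be finitely many forms of degrees `d_a`, generic
over `k`: the ratios of the coefficients of each form `F_a` to one of them are, for all forms
together, algebraically independent over `k`. Let `C` be a proper subset of the set of the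
indices `a`. If the sum of all degrees `d_a`, plus the number of elements of `C`, is at least
`2 m + 2`, there are only finitely many integral points on the complement of the hypersurfaces
`F_a = 0`, `a ∉ C`, in the intersection of `V` with the hypersurfaces `F_a = 0`, `a ∈ C`.
-/

set_option autoImplicit false

namespace Pool.Agent.TH145.Old.GenericLogCompleteIntersections

open Pool.Agent.TH145.MG Pool.Agent.TH145.GC

theorem result {k K : Type} [Field k] [Field K] [IsAlgClosed K] [CharZero K] [Algebra k K]
    {n m : ℕ}
    -- a closed subset of projective space, of dimension at most `m`
    (V : Set (MvPolynomial (Fin (n + 1)) (algebraicClosure k K)))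
    (hVh : ∀ f ∈ V, ∃ e, f.IsHomogeneous e) (hV : DimLE (algebraicClosure k K) V m)
    -- forms of degrees `d a`; the forms `F a` with `a ∈ C` give the equations, the others give the
    -- boundary
    {A : Type} [Fintype A] (d : A → ℕ) (C : Finset A) (_hC : ∃ a, a ∉ C)
    (hd : 2 * m + 2 ≤ ∑ a, d a + C.card)
    (F : A → MvPolynomial (Fin (n + 1)) K) (hF : ∀ a, (F a).IsHomogeneous (d a))
    -- the ratios of the coefficients of the forms are algebraically independent over `k`
    (I0 : A → Fin (n + 1) →₀ ℕ) (h0 : ∀ a, (F a).coeff (I0 a) ≠ 0)
    (hgen : AlgebraicIndependent k
      fun p : (a : A) × {I : Fin (n + 1) →₀ ℕ // I.degree = d a ∧ I ≠ I0 a} =>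
        (F p.1).coeff p.2.1 / (F p.1).coeff (I0 p.1))
    -- a ring contained in a finitely generated algebra over the algebraic closure of `k`
    (T : Finset K) (R : Subring K)
    (hR : R ≤ Subring.closure ((algebraicClosure k K : Set K) ∪ (T : Set K))) :
    (LogInt V F d C R).Finite :=
  fin_integral C hd V hVh hV F hF I0 h0 hgen T R hR

end Pool.Agent.TH145.Old.GenericLogCompleteIntersections
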