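import Pool.Agent.TH145.GC.Main
import Pool.Agent.TH145.GF.Full

/-!
MP_26d9ad_nt, Q1: integral points on generic log complete intersections in an arbitrary projective
variety, all of whose subvarieties are of log general type.

Let `K` be an algebraically closed field of characteristic `0`, and let `k` be a field contained in
`K`, with algebraic closure `k'` in `K`. Let `V` be a closed subset of projective space, defined
over `k'`, of dimension at most `m`, and let `F_a` (`a` in a finite set `A`) be forms of degrees
`d_a`, generic over `k`: the ratios of the coefficients of each form `F_a` to one of them are, for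
all forms together, algebraically independent over `k`. Let `C` be a subset of `A`, and let `U` be
the complement of the hypersurfaces `F_a = 0`, `a ∉ C`, in the intersection of `V` with the
hypersurfaces `F_a = 0`, `a ∈ C`. Suppose that the sum of all degrees `d_a`, plus the number of
elements of `C`, is at least `2 m + 2`. Then:

* every subvariety of `U` of positive dimension is of log general type (the hypothesis of the
  conjecture);
* there are only finitely many integral points on `U` over any ring contained in a finitely
  generated `k'`-algebra (the conclusion of the conjecture).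

In the first part, `L` is the function field of the subvariety, or a finite extension of it, `w` is
its dimension, and `x` is its generic point, in homogeneous coordinates. A prime divisor `Q` over the
closure of the subvariety has its centre outside `U` if `d_a min_i ord_Q (x_i) < ord_Q (F_a (x))` for
some `a` not in `C`; `pord Q x` is the minimum of the orders `ord_Q (x_i)`.
-/

set_option autoImplicit false

namespace Pool.Agent.TH145.Old.GenericLogLangVojtaFull

open FF Pool.Agent.W603.PV Pool.Agent.W602.GT Pool.Agent.TH145.MG Pool.Agent.TH145.GC

theorem result {k K : Type} [Field k] [Field K] [IsAlgClosed K] [CharZero K] [Algebra k K]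
    {n m : ℕ}
    -- a closed subset of projective space, of dimension at most `m`
    (V : Set (MvPolynomial (Fin (n + 1)) (algebraicClosure k K)))
    (hVh : ∀ f ∈ V, ∃ e, f.IsHomogeneous e) (hV : DimLE (algebraicClosure k K) V m)
    -- forms of degrees `d a`; the forms `F a` with `a ∈ C` give the equations, the others give the
    -- boundary
    {A : Type} [Fintype A] (d : A → ℕ) (C : Finset A) (hd : 2 * m + 2 ≤ ∑ a, d a + C.card)
    (F : A → MvPolynomial (Fin (n + 1)) K) (hF : ∀ a, (F a).IsHomogeneous (d a))
    -- the ratios of the coefficients of the forms are algebraically independent over `k`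
    (I0 : A → Fin (n + 1) →₀ ℕ) (h0 : ∀ a, (F a).coeff (I0 a) ≠ 0)
    (hgen : AlgebraicIndependent k
      fun p : (a : A) × {I : Fin (n + 1) →₀ ℕ // I.degree = d a ∧ I ≠ I0 a} =>
        (F p.1).coeff p.2.1 / (F p.1).coeff (I0 p.1)) :
    -- all subvarieties of positive dimension are of log general type
    (∀ (L : Type) [Field L] [Algebra K L] (w : ℕ) (x : Fin (n + 1) → L), 0 < w →
      Algebra.trdeg K L = w → x ≠ 0 → Algebra.IsAlgebraic (coords K x) L →
      (∀ f ∈ V, MvPolynomial.aeval x
        (MvPolynomial.map (algebraMap (algebraicClosure k K) K) f) = 0) →
      (∀ a ∈ C, MvPolynomial.aeval x (F a) = 0) → (∀ a, a ∉ C → MvPolynomial.aeval x (F a) ≠ 0) →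
      LogGeneralType K L w fun Q : Place K L =>
        ∃ a, a ∉ C ∧ d a * pord Q x < Q.ord (MvPolynomial.aeval x (F a))) ∧
    -- finiteness of integral points over rings contained in a finitely generated algebra over the
    -- algebraic closure of `k`
    ∀ (T : Finset K) (R : Subring K),
      R ≤ Subring.closure ((algebraicClosure k K : Set K) ∪ (T : Set K)) →
      (LogInt V F d C R).Finite :=
  ⟨fun _ _ _ _ x hw htr hx0 hxL hxV hxC hxn =>
      Pool.Agent.TH145.GF.log_full V hVh hV F hF I0 h0 hgen.algebraicClosure C hw (by omega) htr x
        hx0 hxL hxV hxC hxn,
    fun T R hR => fin_integral C hd V hVh hV F hF I0 h0 hgen T R hR⟩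

end Pool.Agent.TH145.Old.GenericLogLangVojtaFull
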