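import Pool.Agent.TH145.GK.Main
import Pool.Agent.TH145.GF.Main

/-!
MP_26d9ad_nt, Q1: integral points on generic log complete intersections in an arbitrary projective
variety, all of whose subvarieties are of log general type.

Let `K` be an algebraically closed field of characteristic `0`, and let `k` be a field contained in
`K`, with algebraic closure `k'` in `K`. Let `V` be a closed subset of projective space of dimension
`n`, defined over `k'`, of dimension at most `m`. For `a` in a finite set `A`, let `F_a` be a generic
member of a linear system over `k'` of forms of degree `d_a`, spanned by the forms `P_{a,j}`: the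
ratios of the coefficients `t_{a,j}` of `F_a` to one of them are, for all `a` together,
algebraically independent over `k`. Let `Z` be a set of indices `c` such that each of the linear
systems contains the monomials `x_c ^ (d_a - e) x_i ^ e` for all `i` and `e`, and let `E` be the
linear subspace given by `x_c = 0` for all `c` in `Z`. If the linear systems contain all forms of
the degrees `d_a`, or only all `x_c ^ (d_a - e) x_i ^ e`, then `Z` can be the set of all indices,
and `E` is empty.

Let `C` be a subset of `A`, and let `U` be the complement of the hypersurfaces `F_a = 0`, `a ∉ C`, in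
the intersection of `V` with the hypersurfaces `F_a = 0`, `a ∈ C`. Suppose that the sum of all
degrees `d_a`, plus the number of elements of `C`, is at least `2 m + 2`. Then:

* every subvariety of `U` of positive dimension that is not contained in `E` is of log general type
  (for `E` empty, this is the hypothesis of the conjecture);
* there are only finitely many integral points on `U`, outside of `E`, over any ring contained in a
  finitely generated `k'`-algebra (for `E` empty, this is the conclusion of the conjecture).

In the first part, `L` is the function field of the subvariety, or a finite extension of it, `w` is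
its dimension, and `x` is its generic point, in homogeneous coordinates. A prime divisor `Q` over the
closure of the subvariety has its centre outside `U` if `d_a min_i ord_Q (x_i) < ord_Q (F_a (x))` for
some `a` not in `C`; `pord Q x` is the minimum of the orders `ord_Q (x_i)`.
-/

set_option autoImplicit false

namespace Pool.Agent.TH145.Old.GenericLogLangVojtaStar

open MvPolynomial FF Pool.Agent.W603.PV Pool.Agent.W602.GT Pool.Agent.TH145.MG
open Pool.Agent.TH145.GC (LogInt)
open LinearAlgebra.Projectivization

theorem result {k K : Type} [Field k] [Field K] [IsAlgClosed K] [CharZero K] [Algebra k K]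
    {n m : ℕ}
    -- a closed subset of projective space, of dimension at most `m`
    (V : Set (MvPolynomial (Fin (n + 1)) (algebraicClosure k K)))
    (hVh : ∀ f ∈ V, ∃ e, f.IsHomogeneous e) (hV : DimLE (algebraicClosure k K) V m)
    -- linear systems of forms of degrees `d a`
    {A : Type} [Fintype A] (d : A → ℕ) {J : A → Type} [∀ a, Fintype (J a)]
    (P : ∀ a, J a → MvPolynomial (Fin (n + 1)) (algebraicClosure k K))
    (hP : ∀ a j, (P a j).IsHomogeneous (d a))
    -- they contain the monomials in `x_c` and another variable, for `c ∈ Z`
    (Z : Set (Fin (n + 1))) (hZ : ∀ c ∈ Z, ∀ (a : A) (i : Fin (n + 1)) (e : ℕ), e ≤ d a →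
      ∃ j, P a j = X c ^ (d a - e) * X i ^ e)
    -- the coefficients; their ratios are algebraically independent over `k`
    (t : ∀ a, J a → K) (j0 : ∀ a, J a) (h0 : ∀ a, t a (j0 a) ≠ 0)
    (hgen : AlgebraicIndependent k fun p : (a : A) × {j : J a // j ≠ j0 a} =>
      t p.1 p.2.1 / t p.1 (j0 p.1))
    -- the forms
    (F : A → MvPolynomial (Fin (n + 1)) K)
    (hF : ∀ a, F a = ∑ j, MvPolynomial.C (t a j) * map (algebraMap (algebraicClosure k K) K) (P a j))
    -- the forms `F a` with `a ∈ C` give the equations, the others give the boundary
    (C : Finset A) (hd : 2 * m + 2 ≤ ∑ a, d a + C.card) :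
    -- the subvarieties of positive dimension, not contained in `x_c = 0, c ∈ Z`, are of log general
    -- type
    (∀ (L : Type) [Field L] [Algebra K L] (w : ℕ) (x : Fin (n + 1) → L), 0 < w →
      Algebra.trdeg K L = w → (∃ c ∈ Z, x c ≠ 0) → Algebra.IsAlgebraic (coords K x) L →
      (∀ f ∈ V, aeval x (map (algebraMap (algebraicClosure k K) K) f) = 0) →
      (∀ a ∈ C, aeval x (F a) = 0) → (∀ a, a ∉ C → aeval x (F a) ≠ 0) →
      LogGeneralType K L w fun Q : Place K L =>
        ∃ a, a ∉ C ∧ d a * pord Q x < Q.ord (aeval x (F a))) ∧
    -- finiteness of integral points, outside of `x_c = 0, c ∈ Z`, over rings contained in a finitely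
    -- generated algebra over the algebraic closure of `k`
    ∀ (T : Finset K) (R : Subring K),
      R ≤ Subring.closure ((algebraicClosure k K : Set K) ∪ (T : Set K)) →
      {p : ℙ K (Fin (n + 1) → K) | p ∈ LogInt V F d C R ∧ ∃ c ∈ Z, p.rep c ≠ 0}.Finite := by
  classical
  have hac : IsAlgClosed (algebraicClosure k K) := (algebraicClosure.isAlgClosure k K).isAlgClosed
  have hind : AlgebraicIndependent (algebraicClosure k K)
      fun p : (a : A) × {j : J a // j ≠ j0 a} => t p.1 p.2.1 / t p.1 (j0 p.1) :=
    hgen.algebraicClosure
  have hSt : ∀ c ∈ Z, ∀ a, ∀ I ∈ Pool.Agent.TH145.GD.St c (d a),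
      ∃ j, P a j = monomial I 1 := by
    intro c hc a I hI
    obtain ⟨i, e, he, rfl⟩ := hI
    obtain ⟨j, hj⟩ := hZ c hc a i e he
    refine ⟨j, ?_⟩
    rw [hj, Pool.Agent.TH145.GD.sM, X_pow_eq_monomial, X_pow_eq_monomial, monomial_mul, one_mul]
  constructor
  · intro L _ _ w x hw htr hx0 hxL hxV hxC hxn
    obtain ⟨c, hcZ, hc⟩ := hx0
    exact Pool.Agent.TH145.GF.log_general V hVh hV P hP t j0 h0 hind c (hSt c hcZ) hF C hw
      (by omega) htr x hc hxL hxV hxC hxn
  · intro T R hR
    refine Pool.Agent.TH145.GK.fin_integral C hd V hVh hV P hP Z hSt t j0 h0 hind hF T R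
      (hR.trans (Subring.closure_mono (Set.union_subset_union_left _ ?_)))
    intro x hx
    exact ⟨⟨x, hx⟩, rfl⟩

end Pool.Agent.TH145.Old.GenericLogLangVojtaStar
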