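import Pool.Agent.TH145.MW.Final

/-!
MP_26d9ad_nt, Q1: the Lang-Vojta conjecture for complements of moving Fermat-Waring hypersurfaces.

Let `K` be an algebraically closed field of characteristic `0` and `s` an element of `K` that is
transcendental over a subfield `k0`. Let `U` be an affine variety
`{F_a = 0 for all a, Q_b ≠ 0 for all b}` in the projective `n`-space over `K`, where the `F_a` and
`Q_b` are sums of few high powers of linear forms `A_j`. If no line meets the hyperplanes `A_j = 0`
in a configuration that does not move with `s` and in which the sums split (`Bad`), then `U` has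
only finitely many integral points over every finitely generated subring of `K`, and the closed
subvarieties of `U` are of log general type if the exponents are large. This applies to the
complement of the hypersurface `∑ c_j (∑ s ^ (i (n + 1) ^ j) x_i) ^ e = 0` in the projective
`n`-space, for every `n` and all nonzero coefficients `c_j`.
-/

set_option autoImplicit false

namespace Pool.Agent.TH145.Old.MovingWaringHypersurfaces

open Pool.Agent.TH145.MW

theorem result {K : Type} [Field K] [IsAlgClosed K] [CharZero K] (k0 : Subfield K) (s : K)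
    (hs : Transcendental k0 s) {q n : ℕ} :
    -- the criterion
    (∀ (ι κ : Type) [Finite ι] [Finite κ] [Nonempty κ] (A : Fin q → Fin (n + 1) → K)
      (b : ι → Fin q → K) (d : ι → ℕ) (c : κ → Fin q → K) (e : κ → ℕ),
      (∀ a, 0 < d a ∧ (terms (b a) - 1) ^ 2 ≤ d a) → (∀ a, 0 < e a ∧ terms (c a) ^ 2 ≤ e a) →
      (∀ k1 : Subfield K, k0 ≤ k1 → IsAlgClosed k1 → s ∉ k1 → ¬ Bad (k1 : Set K) A b d c e) →
      (∀ T : Finset K, (IntegralPoints (fun a => wf A (b a) (d a)) (fun a => wf A (c a) (e a))
        (Subring.closure (T : Set K))).Finite) ∧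
      ((∀ a, n * ((q + 2) * (q * (q - 1) / 2)) ≤ d a) →
        (∀ a, n * ((q + 2) * (q * (q - 1) / 2)) ≤ e a) →
        LangVojta (fun a => wf A (b a) (d a)) (fun a => wf A (c a) (e a)))) ∧
    -- the complements of explicit hypersurfaces
    (1 ≤ n → 6 * (n + 1) ^ 2 + n ≤ q → ∀ c : Fin q → K, (∀ j, c j ≠ 0) → ∀ e : ℕ,
      (q ^ 2 ≤ e → ∀ T : Finset K, (IntegralPoints (fun _ : Fin 0 => 0)
        (fun _ : Fin 1 => wf (mom q n s) c e) (Subring.closure (T : Set K))).Finite) ∧
      (n * ((q + 2) * (q * (q - 1) / 2)) ≤ e →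
        LangVojta (fun _ : Fin 0 => 0) (fun _ : Fin 1 => wf (mom q n s) c e))) := by
  refine ⟨fun ι κ _ _ _ A b d c e hd he hN => langVojta k0 s hs A b d c e hd he hN,
    fun hn hq c hc e => ?_⟩
  have hterms : terms c ≤ q := by
    classical
    rw [terms_eq]
    exact (Finset.card_le_univ _).trans (by rw [Fintype.card_fin])
  have hN : ∀ k1 : Subfield K, k0 ≤ k1 → IsAlgClosed k1 → s ∉ k1 →
      ¬ Bad (k1 : Set K) (mom q n s) (fun _ : Fin 0 => (0 : Fin q → K)) (fun _ => 0)
        (fun _ : Fin 1 => c) (fun _ => e) := fun k1 _ hac hsk =>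
    mom_noBad hac hsk hn hq _ _ _ _ (Or.inr ⟨0, hc⟩)
  have hq1 : 1 ≤ q := by nlinarith
  have key : q ^ 2 ≤ e → _ := fun hqe => langVojta k0 s hs (mom q n s)
    (fun _ : Fin 0 => (0 : Fin q → K)) (fun _ => 0) (fun _ : Fin 1 => c) (fun _ => e)
    (fun a => a.elim0)
    (fun _ => ⟨lt_of_lt_of_le (by positivity) hqe,
      (Nat.pow_le_pow_left hterms 2).trans hqe⟩) hN
  have hF : (fun a : Fin 0 => wf (mom q n s) ((fun _ : Fin 0 => (0 : Fin q → K)) a)
      ((fun _ : Fin 0 => 0) a)) = (fun _ : Fin 0 => 0) := by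
    funext a
    exact a.elim0
  rw [hF] at key
  refine ⟨fun hqe => (key hqe).1, fun he => (key ?_).2 (fun a => a.elim0) fun _ => he⟩
  have h1 : 24 ≤ q := by nlinarith
  have h2 : 2 * q ≤ q * (q - 1) := by
    rw [mul_comm]
    exact Nat.mul_le_mul_left q (by omega)
  have h3 : q ≤ q * (q - 1) / 2 := by omega
  calc q ^ 2 = q * q := sq q
    _ ≤ (q + 2) * (q * (q - 1) / 2) := Nat.mul_le_mul (by omega) h3
    _ ≤ n * ((q + 2) * (q * (q - 1) / 2)) := Nat.le_mul_of_pos_left _ hn
    _ ≤ e := he

end Pool.Agent.TH145.Old.MovingWaringHypersurfaces
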